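import Mathlib
import Pool.Agent.R583.OArith

set_option autoImplicit false

/-!
# The Ostaszewski square at `ω₁` does not imply `2 ^ ω₁ = ω₂`
-/

namespace Pool.Agent.Results.MP_9a8e62_lc.OstaszewskiWithoutCH

open Cardinal Pool.Agent.Helper669.Forcing Pool.Agent.Helper669.K Pool.Agent.R583.DDefs
  Pool.Agent.R583.ODefs

/-- There are a cardinal `μ > ℵ₁` and a forcing notion such that every condition forces, for
`λ = ℵ₁`: `λ` is regular (hence a regular uncountable cardinal); `μ` is regular, and every proper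
initial segment of `μ` is an image of `λ` (so `μ = λ⁺`); no family of subsets of `λ` indexed by
`μ` contains all the subsets of `λ` (so `2 ^ λ > λ⁺`); the Ostaszewski square holds at `λ`. -/
theorem result : ∃ μ : Cardinal.{0}, ℵ₁ < μ ∧ ∃ (P : Type) (_ : Preorder P), Nonempty P ∧
    ∀ p : P, p ∈ StaysRegular P ℵ₁ ∧ p ∈ StaysRegular P μ ∧
      p ∈ (fall fun x : μ.ord.ToType => FImage P (ℵ₁ : Cardinal.{0}).ord.ToType (Set.Iic x)) ∧
      p ∈ fnot (FPowLe P (ℵ₁ : Cardinal.{0}).ord.ToType μ.ord.ToType) ∧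
      p ∈ FOstaszewski P (ℵ₁ : Cardinal.{0}).ord.ToType μ.ord.ToType :=
  Pool.Agent.R583.O.main

end Pool.Agent.Results.MP_9a8e62_lc.OstaszewskiWithoutCH
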